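import Mathlib
import Pool.Agent.H25.Wk

namespace Pool.Agent.Results.MP_043c16_co.Fval

open H25.Wk

theorem result (k : ℕ) (hk : 2 ≤ k) (h1 : k % 2 = 1 → 19 ≤ k) (h2 : k % 10 = 1 → 81 ≤ k) :
    IsLeast (Good (k + 2) k 1)
      (if k % 2 = 0 then 2 * k + 4 else if k % 10 = 1 then 5 * (k + 7) / 2
        else 5 * (k + 3) / 2) := by
  obtain ⟨a, b, c, -⟩ := allparts k hk
  split_ifs with e1 e2
  · exact a e1
  · exact c e2 (h2 e2)
  · exact b (by omega) (h1 (by omega)) e2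

end Pool.Agent.Results.MP_043c16_co.Fval
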