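import Mathlib
import Pool.Agent.H25.Wk

namespace Pool.Agent.Results.MP_043c16_co.Gbound

open H25.Wk

theorem result (k : ℕ) (hk : 2 ≤ k) : ∃ g0 : ℕ,
    IsLeast {g : ℕ | ∀ n, g ≤ n → n ∈ Good (k + 2) k 1} g0 ∧ g0 ≤ 3 * k + 6 ∧
      ∀ p : ℕ, p.Prime → p ≤ 3 * k + 2 → p < g0 := by
  obtain ⟨-, -, -, a, b, -⟩ := allparts k hk
  have hne : {g : ℕ | ∀ n, g ≤ n → n ∈ Good (k + 2) k 1}.Nonempty := ⟨_, a⟩
  refine ⟨sInf _, ⟨Nat.sInf_mem hne, fun g hg => Nat.sInf_le hg⟩, Nat.sInf_le a,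
    fun p h1 h2 => ?_⟩
  by_contra hc
  exact b p h1 h2 (Nat.sInf_mem hne p (not_lt.1 hc))

end Pool.Agent.Results.MP_043c16_co.Gbound
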