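import Mathlib
import Pool.Agent.H25.Wk

namespace Pool.Agent.Results.MP_043c16_co.Gexact

open H25.Wk

theorem result (k : ℕ) (hk : 2 ≤ k) (hc : Nat.Coprime (k - 1) 21) (h4 : k % 4 ≠ 1)
    (hp : (3 * k + 1 + k % 2).Prime) :
    IsLeast {g : ℕ | ∀ n, g ≤ n → n ∈ Good (k + 2) k 1} (3 * k + 2 + k % 2) := by
  obtain ⟨-, -, -, -, -, a, b⟩ := allparts k hk
  rcases Nat.mod_two_eq_zero_or_one k with e | e <;> rw [e] at hp ⊢
  · exact a e hc hp
  · exact b (by omega) hc hp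

end Pool.Agent.Results.MP_043c16_co.Gexact
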